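import Mathlib
import Pool.Agent.Y318.HR.Main

/-!
# Herman rings of the quadratic Hénon map for almost every rotation number

`H(x, y) = (y, x + y ^ 2)` has Herman rings. The starting file `HermanRing.lean` proves that there is
at least one. Here:

* every irrational number `θ` with `|m θ - j| ≥ γ / m ^ 2` for some `γ > 0` and all integers `m ≥ 1`,
  `j`, hence Lebesgue almost every real number, is the rotation number of Herman rings of `H`; they
  are embedded annuli, they exist in every neighbourhood of the origin, and the iterate can be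
  prescribed (all even numbers from some number on);
* for the second iterate alone the set of rotation numbers `θ` of such rings of size at most `K θ`
  has density one at `0`, with error `O(x ^ 2)` for the measure of the complement in `(0, x)`.
-/

set_option autoImplicit false

namespace Pool.Agent.Results.MP_68f9d6_an.AlmostEveryRotationNumber

open MeasureTheory Set

/-- The quadratic automorphism `(x, y) ↦ (y, x + y ^ 2)` of `ℂ × ℂ`. -/
def henon (p : ℂ × ℂ) : ℂ × ℂ := (p.2, p.1 + p.2 ^ 2)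

/-- `henon` has an embedded Herman ring with irrational rotation number `θ` for its `n`-th iterate,
contained in the ball of radius `ρ` (for the maximum norm of `ℂ × ℂ`). The embedding is a holomorphic
map on the annulus `{z ∈ ℂ/ℤ : |Im z| < h}`, given as a one-periodic map on the strip
`{|Im z| < h}` that is complex differentiable there and takes the same value at two points of the
strip only if they differ by an integer. -/
def HermanRing (θ : ℝ) (n : ℕ) (ρ : ℝ) : Prop :=
  Irrational θ ∧ ∃ h : ℝ, 0 < h ∧ ∃ φ : ℂ → ℂ × ℂ,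
    DifferentiableOn ℂ φ {z : ℂ | |z.im| < h} ∧
    (∀ z : ℂ, |z.im| < h → φ (z + 1) = φ z) ∧
    (∀ z z' : ℂ, |z.im| < h → |z'.im| < h → φ z = φ z' → ∃ m : ℤ, z' = z + m) ∧
    (∀ z : ℂ, |z.im| < h → henon^[n] (φ z) = φ (z + θ)) ∧
    ∀ z : ℂ, |z.im| < h → ‖φ z‖ < ρ

lemma ring_iff {θ ρ : ℝ} {n : ℕ} :
    HermanRing θ n ρ ↔ Irrational θ ∧ Pool.Agent.Y318.HR.Ring θ n ρ := Iff.rfl

theorem result :
    -- all Diophantine numbers of exponent two
    (∀ θ : ℝ, (∃ γ : ℝ, 0 < γ ∧ ∀ (m : ℕ) (j : ℤ), 1 ≤ m → γ / m ^ 2 ≤ |m * θ - j|) →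
      ∀ ρ : ℝ, 0 < ρ → ∃ n0 : ℕ, ∀ n : ℕ, n0 ≤ n → HermanRing θ (2 * n) ρ) ∧
    -- almost all numbers
    (∀ᵐ θ : ℝ, ∀ ρ : ℝ, 0 < ρ → ∃ n0 : ℕ, ∀ n : ℕ, n0 ≤ n → HermanRing θ (2 * n) ρ) ∧
    -- rotation numbers of the second iterate
    ∃ C K : ℝ, ∀ x : ℝ, 0 < x →
      volume {θ : ℝ | θ ∈ Ioo 0 x ∧ ¬ HermanRing θ 2 (K * θ)} ≤ ENNReal.ofReal (C * x ^ 2) := by
  refine ⟨fun θ hθ ρ hρ => ?_, ?_, ?_⟩
  · obtain ⟨n0, h⟩ := Pool.Agent.Y318.HR.rings_dio hθ hρ
    exact ⟨n0, fun n hn => ⟨Pool.Agent.Y318.HR.Dio.irrational hθ, h n hn⟩⟩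
  · filter_upwards [Pool.Agent.Y318.HR.ae_dio] with θ hθ ρ hρ
    obtain ⟨n0, h⟩ := Pool.Agent.Y318.HR.rings_dio hθ hρ
    exact ⟨n0, fun n hn => ⟨Pool.Agent.Y318.HR.Dio.irrational hθ, h n hn⟩⟩
  · exact Pool.Agent.Y318.HR.measure_two

end Pool.Agent.Results.MP_68f9d6_an.AlmostEveryRotationNumber
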